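import Pool.Agent.Y223.G.Stm14
import Pool.Agent.Y223.G.WBase

set_option autoImplicit false

/-!
# Project G, wave 7 (helper223): S_EC2E
-/

namespace Pool.Agent.Y239.H.Ec2e

open Pool.Agent.Y223.G Finset
open scoped Pointwise

section

variable {k K : Type} [CommRing k] [Field K] [Algebra k K] (τ : K ≃ₐ[k] K) (l : ℕ)

/-- the operator `T ^ (3 l) (τ - 1)` -/
noncomputable def D (f : LP K) : LP K := hm ((3 * l : ℕ) : ℤ) 1 * (tl τ f - f)

lemma D_mul (f g : LP K) : D τ l (f * g) = D τ l f * tl τ g + f * D τ l g := by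
  unfold D
  rw [map_mul]
  ring

lemma D_add (f g : LP K) : D τ l (f + g) = D τ l f + D τ l g := by
  unfold D
  rw [map_add]
  ring

lemma D_hm (n : ℤ) (x : K) : D τ l (hm n x) = hm ((3 * l : ℕ) + n) (τ x - x) := by
  unfold D
  rw [tl_hm, ← hm_sub, hm_mul, one_mul]

lemma tl_eq (f : LP K) : tl τ f = f + hm (-1) 1 ^ (3 * l) * D τ l f := by
  unfold D
  rw [← mul_assoc, hm_pow, hm_mul]
  have h1 : ((3 * l : ℕ) : ℤ) * -1 + ((3 * l : ℕ) : ℤ) = 0 := by ring
  rw [h1, one_pow, one_mul, hm_one, one_mul]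
  ring

/-- the subalgebra of the elements mapped to `R` -/
lemma D_adjoin (S : Set (LP K)) (hT : hm (-1) 1 ∈ Algebra.adjoin k S)
    (hS : ∀ f ∈ S, D τ l f ∈ Algebra.adjoin k S) :
    ∀ f ∈ Algebra.adjoin k S, D τ l f ∈ Algebra.adjoin k S := by
  intro f hf
  induction hf using Algebra.adjoin_induction with
  | mem x hx => exact hS x hx
  | algebraMap r =>
    rw [algebraMap_LP, D_hm, AlgEquiv.commutes, sub_self, hm_zero]
    exact Subalgebra.zero_mem _
  | add x y hx hy h1 h2 =>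
    rw [D_add]
    exact Subalgebra.add_mem _ h1 h2
  | mul x y hx hy h1 h2 =>
    rw [D_mul, tl_eq τ l y]
    exact Subalgebra.add_mem _ (Subalgebra.mul_mem _ h1 (Subalgebra.add_mem _ hy
      (Subalgebra.mul_mem _ (Subalgebra.pow_mem _ hT _) h2))) (Subalgebra.mul_mem _ hx h2)

/-- the monomials of degree `n` in homogeneous elements -/
def Mo {m : ℕ} (w : Fin (m + 1) → ℕ) (z : Fin (m + 1) → K) (n : ℕ) : Set (LP K) :=
  {f | ∃ a : Fin (m + 1) → ℕ, ∑ j, a j = n ∧ f = hm ((∑ j, w j * a j : ℕ) : ℤ) (∏ j, z j ^ a j)}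

lemma Mo_zero {m : ℕ} (w : Fin (m + 1) → ℕ) (z : Fin (m + 1) → K) : (1 : LP K) ∈ Mo w z 0 := by
  refine ⟨0, by simp, ?_⟩
  simp [hm_one]

lemma Mo_mul {m : ℕ} (w : Fin (m + 1) → ℕ) (z : Fin (m + 1) → K) {n n' : ℕ} {f g : LP K}
    (hf : f ∈ Mo w z n) (hg : g ∈ Mo w z n') : f * g ∈ Mo w z (n + n') := by
  obtain ⟨a, ha, rfl⟩ := hf
  obtain ⟨b, hb, rfl⟩ := hg
  refine ⟨a + b, ?_, ?_⟩
  · rw [← ha, ← hb, ← sum_add_distrib]
    rfl
  · rw [hm_mul, ← prod_mul_distrib]
    congr 1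
    · rw [← Nat.cast_add, ← sum_add_distrib]
      congr 1
      exact sum_congr rfl fun j _ => by rw [Pi.add_apply]; ring
    · exact prod_congr rfl fun j _ => by rw [Pi.add_apply, pow_add]

/-- the span over a subalgebra `R` -/
noncomputable def V (R : Subalgebra k (LP K)) {m : ℕ} (w : Fin (m + 1) → ℕ)
    (z : Fin (m + 1) → K) (n : ℕ) : Submodule R (LP K) :=
  Submodule.span R (Mo w z n)

lemma V_mul (R : Subalgebra k (LP K)) {m : ℕ} (w : Fin (m + 1) → ℕ)
    (z : Fin (m + 1) → K) {n n' : ℕ} {f g : LP K} (hf : f ∈ V R w z n) (hg : g ∈ V R w z n') :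
    f * g ∈ V R w z (n + n') := by
  have h1 : f * g ∈ V R w z n * V R w z n' := Submodule.mul_mem_mul hf hg
  unfold V at h1 ⊢
  rw [Submodule.span_mul_span] at h1
  refine Submodule.span_mono ?_ h1
  rintro _ ⟨x, hx, y, hy, rfl⟩
  exact Mo_mul w z hx hy

lemma V_smul (R : Subalgebra k (LP K)) {m : ℕ} (w : Fin (m + 1) → ℕ)
    (z : Fin (m + 1) → K) {n : ℕ} {f g : LP K} (hf : f ∈ R) (hg : g ∈ V R w z n) :
    f * g ∈ V R w z n :=
  Submodule.smul_mem _ (⟨f, hf⟩ : R) hg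

/-- the elements with good image -/
def P (R : Subalgebra k (LP K)) {m : ℕ} (w : Fin (m + 1) → ℕ)
    (z : Fin (m + 1) → K) (n : ℕ) (f : LP K) : Prop := f ∈ V R w z n ∧ D τ l f ∈ V R w z n

variable {τ l}

lemma P_mul {R : Subalgebra k (LP K)} (hT : hm (-1) 1 ∈ R) {m : ℕ} {w : Fin (m + 1) → ℕ}
    {z : Fin (m + 1) → K} {n n' : ℕ} {f g : LP K} (hf : P τ l R w z n f)
    (hg : P τ l R w z n' g) : P τ l R w z (n + n') (f * g) := by
  refine ⟨V_mul R w z hf.1 hg.1, ?_⟩
  rw [D_mul, tl_eq τ l g]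
  exact Submodule.add_mem _ (V_mul R w z hf.2 (Submodule.add_mem _ hg.1
    (V_smul R w z (Subalgebra.pow_mem _ hT _) hg.2))) (V_mul R w z hf.1 hg.2)

lemma P_one {R : Subalgebra k (LP K)} {m : ℕ} {w : Fin (m + 1) → ℕ}
    {z : Fin (m + 1) → K} : P τ l R w z 0 1 := by
  refine ⟨Submodule.subset_span (Mo_zero w z), ?_⟩
  rw [← hm_one, D_hm, map_one, sub_self, hm_zero]
  exact Submodule.zero_mem _

lemma P_pow {R : Subalgebra k (LP K)} (hT : hm (-1) 1 ∈ R) {m : ℕ} {w : Fin (m + 1) → ℕ}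
    {z : Fin (m + 1) → K} {f : LP K} (hf : P τ l R w z 1 f) (n : ℕ) :
    P τ l R w z n (f ^ n) := by
  induction n with
  | zero => rw [pow_zero]; exact P_one
  | succ n ih => rw [pow_succ]; exact P_mul hT ih hf

lemma P_prod {R : Subalgebra k (LP K)} (hT : hm (-1) 1 ∈ R) {m : ℕ} {w : Fin (m + 1) → ℕ}
    {z : Fin (m + 1) → K} {J : Type} (s : Finset J) (f : J → LP K) (n : J → ℕ)
    (hf : ∀ j ∈ s, P τ l R w z (n j) (f j)) : P τ l R w z (∑ j ∈ s, n j) (∏ j ∈ s, f j) := by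
  classical
  induction s using Finset.induction_on with
  | empty => rw [sum_empty, prod_empty]; exact P_one
  | insert a s ha ih =>
    rw [sum_insert ha, prod_insert ha]
    exact P_mul hT (hf a (mem_insert_self _ _)) (ih fun j hj => hf j (mem_insert_of_mem hj))

lemma hm_prod {J : Type} (s : Finset J) (n : J → ℤ) (x : J → K) :
    ∏ j ∈ s, hm (n j) (x j) = hm (∑ j ∈ s, n j) (∏ j ∈ s, x j) := by
  classical
  induction s using Finset.induction_on with
  | empty => simp [hm_one]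
  | insert a s ha ih => rw [prod_insert ha, prod_insert ha, sum_insert ha, ih, hm_mul]

lemma P_mono {R : Subalgebra k (LP K)} (hT : hm (-1) 1 ∈ R) {m : ℕ} {w : Fin (m + 1) → ℕ}
    {z : Fin (m + 1) → K} (hv : ∀ j, D τ l (hm (w j) (z j)) ∈ V R w z 1)
    (a : Fin (m + 1) → ℕ) :
    P τ l R w z (∑ j, a j) (hm ((∑ j, w j * a j : ℕ) : ℤ) (∏ j, z j ^ a j)) := by
  have hvar : ∀ j, hm (w j) (z j) ∈ Mo w z 1 := by
    intro j
    refine ⟨Pi.single j 1, by simp, ?_⟩
    congr 1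
    · simp [Pi.single_apply]
    · rw [prod_eq_single j]
      · simp
      · intro i _ hi
        simp [hi]
      · simp
  have h1 := P_prod (τ := τ) (l := l) hT univ (fun j => hm (w j) (z j) ^ a j) a
    (fun j _ => P_pow hT ⟨Submodule.subset_span (hvar j), hv j⟩ (a j))
  have h2 : ∏ j, (hm (w j) (z j)) ^ a j =
      hm ((∑ j, w j * a j : ℕ) : ℤ) (∏ j, z j ^ a j) := by
    have h3 : ∀ j ∈ (univ : Finset (Fin (m + 1))), hm (w j) (z j) ^ a j =
        hm (((w j * a j : ℕ) : ℤ)) (z j ^ a j) := fun j _ => by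
      rw [hm_pow]
      congr 1
      push_cast
      ring
    rw [prod_congr rfl h3, hm_prod, Nat.cast_sum]
  rwa [h2] at h1

/-- division of the monomials by `Φ` -/
lemma V_div {R : Subalgebra k (LP K)} {m : ℕ} {w : Fin (m + 1) → ℕ}
    {z : Fin (m + 1) → K} {n : ℕ} {x : K} (hR : ∀ f ∈ Mo w z n, f * hm 0 x ∈ R) {f : LP K}
    (hf : f ∈ V R w z n) : f * hm 0 x ∈ R := by
  unfold V at hf
  induction hf using Submodule.span_induction with
  | mem f hf => exact hR f hf
  | zero => rw [zero_mul]; exact R.zero_mem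
  | add f g _ _ h1 h2 => rw [add_mul]; exact R.add_mem h1 h2
  | smul r f _ h1 =>
    have h2 : r • f * hm 0 x = (r : LP K) * (f * hm 0 x) := by
      rw [← mul_assoc]
      rfl
    rw [h2]
    exact R.mul_mem r.2 h1

end

theorem t_EC2E (hB : S_RWB) : S_EC2E := by
  intro k O K Ω _ _ _ _ _ _ _ _ τ t 𝔓 l hl z Wc B hE d Φ hΦ f hf
  obtain ⟨-, -, -, hT, -, hp, -⟩ := hB k O K Ω 𝔓 3 (by norm_num) 2 (WE l B) z d Φ
  have h0 : ∀ o : O, hm 0 (algebraMap O K o) ∈ RW k 𝔓 3 (WE l B) z d Φ := fun o =>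
    Algebra.subset_adjoin (Or.inl (Or.inr ⟨o, rfl⟩))
  have hTn : ∀ n : ℕ, hm (-(n : ℤ)) 1 ∈ RW k 𝔓 3 (WE l B) z d Φ := fun n => by
    have h1 := Subalgebra.pow_mem _ hT n
    rwa [hm_pow, one_pow, mul_neg_one] at h1
  -- elements of `R`
  have hpl : ∀ a ∈ 𝔓 ^ l, hm ((3 * l : ℕ) : ℤ) (algebraMap O K a) ∈
      RW k 𝔓 3 (WE l B) z d Φ := hp l
  have hpn : ∀ (m n : ℕ) (a : O), m ≤ 3 * n → a ∈ 𝔓 ^ n → hm (m : ℤ) (algebraMap O K a) ∈
      RW k 𝔓 3 (WE l B) z d Φ := by
    intro m n a hmn ha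
    have h1 := Subalgebra.mul_mem _ (hTn (3 * n - m)) (hp n a ha)
    rw [hm_mul, one_mul] at h1
    have h2 : -((3 * n - m : ℕ) : ℤ) + ((3 * n : ℕ) : ℤ) = (m : ℤ) := by
      rw [Nat.cast_sub hmn]
      ring
    rwa [h2] at h1
  refine D_adjoin τ l _ hT ?_ f hf
  rintro g (((hg | ⟨a, ha, rfl⟩) | ⟨o, rfl⟩) | ⟨ω, a, ha, rfl⟩)
  · rw [Set.mem_singleton_iff] at hg
    rw [hg, D_hm, map_one, sub_self, hm_zero]
    exact Subalgebra.zero_mem _
  · rw [D_hm, hE.com, ← map_sub]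
    have h1 := hp (l + 1) _ (hE.dv a)
    have h2 : ((3 * (l + 1) : ℕ) : ℤ) = ((3 * l : ℕ) : ℤ) + ((3 : ℕ) : ℤ) := by
      push_cast
      ring
    rw [h2] at h1
    exact h1
  · rw [D_hm, hE.com, ← map_sub, add_zero]
    exact hpl _ (Ideal.pow_le_pow_right (Nat.le_succ l) (hE.dv o))
  · -- the monomials
    obtain ⟨u, r, s, v, hX, hY, hu, ⟨n, hn, hrn⟩, ⟨n', hn', hsn⟩, hB1, hB2⟩ := hE.tu ω
    have hZ : z ω 2 = 1 := (hE.ec ω).z2
    have hrl := hpn l n r hn hrn
    have hs2 := hpn (2 * l) n' (s * u ^ 2) hn' (Ideal.mul_mem_right _ _ hsn)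
    set R := RW k 𝔓 3 (WE l B) z d Φ with hR
    have hMo : ∀ f ∈ Mo (WE l B ω) (z ω) d, f * hm 0 (Φ ω)⁻¹ ∈ R := by
      rintro _ ⟨b, hb, rfl⟩
      refine Algebra.subset_adjoin (Or.inr ⟨ω, b, hb, ?_⟩)
      rw [hm_mul, add_zero, div_eq_mul_inv]
    have hu2 : u ^ 2 - 1 ∈ 𝔓 ^ l := by
      have : u ^ 2 - 1 = (u + 1) * (u - 1) := by ring
      rw [this]
      exact Ideal.mul_mem_left _ _ hu
    have hu3 : u ^ 3 - 1 ∈ 𝔓 ^ l := by
      have : u ^ 3 - 1 = (u ^ 2 + u + 1) * (u - 1) := by ring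
      rw [this]
      exact Ideal.mul_mem_left _ _ hu
    have hvar : ∀ j, hm (WE l B ω j) (z ω j) ∈ V R (WE l B ω) (z ω) 1 := by
      intro j
      refine Submodule.subset_span ⟨Pi.single j 1, by simp, ?_⟩
      congr 1
      · simp [Pi.single_apply]
      · rw [prod_eq_single j]
        · simp
        · intro i _ hi
          simp [hi]
        · simp
    have hD : ∀ j, D τ l (hm (WE l B ω j) (z ω j)) ∈ V R (WE l B ω) (z ω) 1 := by
      by_cases hω : ω ∈ B
      · have hW : WE l B ω = ![l, 0, 3 * l] := by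
          unfold WE
          rw [if_pos hω]
        have v0 := hvar 0
        have v1 := hvar 1
        have v2 := hvar 2
        rw [hZ] at v2
        have w0 : WE l B ω 0 = l := by rw [hW]; rfl
        have w1 : WE l B ω 1 = 0 := by rw [hW]; rfl
        have w2 : WE l B ω 2 = 3 * l := by rw [hW]; rfl
        rw [w0] at v0
        rw [w1] at v1
        rw [w2] at v2
        intro j
        fin_cases j
        · show D τ l (hm (WE l B ω 0) (z ω 0)) ∈ _
          rw [w0, D_hm, hX]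
          have h1 := Submodule.add_mem _ (V_smul R (WE l B ω) (z ω) (hpl _ hu2) v0)
            (V_smul R (WE l B ω) (z ω) hrl v2)
          rw [hm_mul, hm_mul] at h1
          have e1 : (l : ℤ) + ((3 * l : ℕ) : ℤ) = ((3 * l : ℕ) : ℤ) + (l : ℤ) := by ring
          rw [e1, ← hm_add] at h1
          convert h1 using 2
          rw [map_sub, map_one]
          ring
        · show D τ l (hm (WE l B ω 1) (z ω 1)) ∈ _
          rw [w1, D_hm, hY]
          have h1 := Submodule.add_mem _ (Submodule.add_mem _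
            (V_smul R (WE l B ω) (z ω) (hpl _ hu3) v1)
            (V_smul R (WE l B ω) (z ω) hs2 v0))
            (V_smul R (WE l B ω) (z ω) (h0 v) v2)
          simp only [hm_mul] at h1
          have e1 : ((2 * l : ℕ) : ℤ) + (l : ℤ) =
            ((3 * l : ℕ) : ℤ) + ((0 : ℕ) : ℤ) := by push_cast; ring
          have e2 : (0 : ℤ) + ((3 * l : ℕ) : ℤ) =
            ((3 * l : ℕ) : ℤ) + ((0 : ℕ) : ℤ) := by push_cast; ring
          rw [e1, e2, ← hm_add, ← hm_add] at h1
          convert h1 using 2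
          rw [map_sub, map_one]
          ring
        · show D τ l (hm (WE l B ω 2) (z ω 2)) ∈ _
          rw [hZ, D_hm, map_one, sub_self, hm_zero]
          exact Submodule.zero_mem _
      · have hW : WE l B ω = 0 := by
          unfold WE
          rw [if_neg hω]
        obtain ⟨hr, hs, hv⟩ := hB2 hω
        have hsu : s * u ^ 2 ∈ 𝔓 ^ l := Ideal.mul_mem_right _ _ hs
        have v0 := hvar 0
        have v1 := hvar 1
        have v2 := hvar 2
        rw [hZ] at v2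
        have w0 : WE l B ω 0 = 0 := by rw [hW]; rfl
        have w1 : WE l B ω 1 = 0 := by rw [hW]; rfl
        have w2 : WE l B ω 2 = 0 := by rw [hW]; rfl
        rw [w0] at v0
        rw [w1] at v1
        rw [w2] at v2
        intro j
        fin_cases j
        · show D τ l (hm (WE l B ω 0) (z ω 0)) ∈ _
          rw [w0, D_hm, hX]
          have h1 := Submodule.add_mem _ (V_smul R (WE l B ω) (z ω) (hpl _ hu2) v0)
            (V_smul R (WE l B ω) (z ω) (hpl _ hr) v2)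
          rw [hm_mul, hm_mul, ← hm_add] at h1
          convert h1 using 2
          rw [map_sub, map_one]
          ring
        · show D τ l (hm (WE l B ω 1) (z ω 1)) ∈ _
          rw [w1, D_hm, hY]
          have h1 := Submodule.add_mem _ (Submodule.add_mem _
            (V_smul R (WE l B ω) (z ω) (hpl _ hu3) v1)
            (V_smul R (WE l B ω) (z ω) (hpl _ hsu) v0))
            (V_smul R (WE l B ω) (z ω) (hpl _ hv) v2)
          simp only [hm_mul] at h1
          rw [← hm_add, ← hm_add] at h1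
          convert h1 using 2
          rw [map_sub, map_one]
          ring
        · show D τ l (hm (WE l B ω 2) (z ω 2)) ∈ _
          rw [hZ, D_hm, map_one, sub_self, hm_zero]
          exact Submodule.zero_mem _
    have hP := (P_mono (τ := τ) (l := l) hT hD a).2
    rw [ha] at hP
    have h1 := V_div hMo hP
    have h2 : D τ l (hm ((∑ j, WE l B ω j * a j : ℕ) : ℤ) (∏ j, z ω j ^ a j)) * hm 0 (Φ ω)⁻¹ =
        D τ l (hm ((∑ j, WE l B ω j * a j : ℕ) : ℤ) ((∏ j, z ω j ^ a j) / Φ ω)) := by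
      rw [D_hm, D_hm, hm_mul, add_zero, map_div₀, hΦ ω]
      congr 1
      rw [div_eq_mul_inv, div_eq_mul_inv]
      ring
    rw [h2] at h1
    exact h1

end Pool.Agent.Y239.H.Ec2e
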